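import Pool.Agent.helper81.DH.SpecF

/-! # d2:FSP: support of the partial residuals -/

set_option autoImplicit false

open Filter Topology MeasureTheory
open scoped commutatorElement

namespace Pool.Agent.helper90.DH

open Pool.Agent.helper64.D2

theorem FSP_inv {g : DD} {x z : ℝ} (h : ev g x = z) : ev g⁻¹ z = x := by
  rw [← h]
  exact ev_inv g x

theorem FSP (hSZC : SZC_stmt) : FSP_stmt := by
  intro q Y G Q R a b γ hab hγ hQ hR hY hG i hi x hx
  have hQz : ∀ z : ℝ, z ∉ Set.Icc a b → ∀ j ≤ q, ev (Q j) z = z := by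
    intro z hz j hj
    have h1 : ev (Q j) z = z + ∑ k ∈ Finset.Ico j q, Y k z := hQ j hj z
    rw [h1, Finset.sum_eq_zero, add_zero]
    intro k hk
    exact hY k (Finset.mem_Ico.1 hk).2 z hz
  have key : ∀ d, d ≤ q → ev (R (q - d)) x = x := by
    intro d
    induction d with
    | zero =>
      intro _
      rw [Nat.sub_zero, hR.1]
      exact ev_one x
    | succ d ih =>
      intro hd
      have h0 := ih (by omega)
      obtain ⟨j, hj⟩ : ∃ j, j = q - (d + 1) := ⟨_, rfl⟩
      have hj1 : q - d = j + 1 := by omega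
      have hjq : j < q := by omega
      rw [hj1] at h0
      rw [← hj, hR.2 j hjq]
      have hz : ev (G j) x ∉ Set.Icc a b := by
        have h1 := (hSZC.2.1 (G j) γ (hG j hjq) x).2
        intro h2
        refine hx ⟨?_, ?_⟩
        · linarith [h2.1, (abs_le.1 h1).2]
        · linarith [h2.2, (abs_le.1 h1).1]
      rw [ev_mul, h0, ev_mul, ev_mul, ev_mul]
      rw [FSP_inv (hQz _ hz (j + 1) (by omega)), hQz _ hz j hjq.le]
      exact ev_inv _ _
  have h1 := key (q - i) (by omega)
  rwa [show q - (q - i) = i by omega] at h1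

end Pool.Agent.helper90.DH
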