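import Pool.Agent.helper5.DH.Spec
import Pool.Agent.helper98.ILF.Density

/-! dh:PUL: the final contradiction, analytic part. -/

set_option autoImplicit false

open Complex Metric Set Filter Topology MeasureTheory Pool.Agent.helper98.ILF Pool.Agent.helper16.Multibrot
open HY (UD T S hd UN RM VV SG Orb fz)

noncomputable section

namespace DH

/-- change of variables. -/
theorem PUL_cv (S : ℂ → ℂ) (h : ℂ → ℝ) (Ω B : Set ℂ) (m : ℝ) (hΩ : IsOpen Ω) (hB : volume B ≠ ⊤)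
    (hm : Measurable h) (hb : ∀ z, 0 ≤ h z ∧ h z ≤ 2) (hd : DifferentiableOn ℂ S Ω) (hinj : InjOn S Ω)
    (himg : S '' Ω ⊆ B) (hmp : 0 < m) (hder : ∀ z ∈ Ω, m ≤ ‖deriv S z‖) :
    ∫ z in Ω, h (S z) ≤ (m ^ 2)⁻¹ * ∫ z in B, h z := by
  have hBm : MeasurableSet Ω := hΩ.measurableSet
  have hfd : ∀ y ∈ Ω, HasFDerivWithinAt S
      ((ContinuousLinearMap.toSpanSingleton ℂ (deriv S y)).restrictScalars ℝ : ℂ →L[ℝ] ℂ)
      Ω y := by
    intro y hy
    exact (((hd.differentiableAt (hΩ.mem_nhds hy)).hasDerivAt.hasFDerivAt).restrictScalars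
      ℝ).hasFDerivWithinAt
  have h1 := integral_image_eq_integral_abs_det_fderiv_smul volume hBm hfd hinj h
  have hint2 : IntegrableOn h B := by
    refine Measure.integrableOn_of_bounded (M := 2) hB hm.aestronglyMeasurable ?_
    refine Eventually.of_forall fun z => ?_
    rw [Real.norm_eq_abs, abs_of_nonneg (hb z).1]
    exact (hb z).2
  have h2 : ∫ x in S '' Ω, h x ≤ ∫ x in B, h x :=
    setIntegral_mono_set hint2 (Eventually.of_forall fun z => (hb z).1) himg.eventuallyLE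
  have h3 := (integrableOn_image_iff_integrableOn_abs_det_fderiv_smul volume hBm hfd hinj h).1
    (hint2.mono_set himg)
  have h4 : ∫ z in Ω, h (S z) ≤ ∫ z in Ω, (m ^ 2)⁻¹ *
      (|((ContinuousLinearMap.toSpanSingleton ℂ (deriv S z)).restrictScalars ℝ : ℂ →L[ℝ] ℂ).det| •
        h (S z)) := by
    refine integral_mono_of_nonneg (Eventually.of_forall fun z => (hb (S z)).1)
      (h3.const_mul (m ^ 2)⁻¹) ?_
    rw [EventuallyLE, ae_restrict_iff' hBm]
    refine Eventually.of_forall fun z hz => ?_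
    rw [det_smul, abs_of_nonneg (by positivity), smul_eq_mul]
    have h5 := hder z hz
    have h6 := (hb (S z)).1
    have h7 : m ^ 2 ≤ ‖deriv S z‖ ^ 2 := pow_le_pow_left₀ hmp.le h5 2
    have h8 : 0 < m ^ 2 := by positivity
    rw [inv_mul_eq_div, le_div_iff₀ h8]
    nlinarith
  rw [integral_const_mul] at h4
  rw [← h1] at h4
  refine le_trans h4 ?_
  exact mul_le_mul_of_nonneg_left h2 (by positivity)

/-- `conj z / z` is bounded. -/
theorem PUL_arg (z : ℂ) : ‖(starRingEnd ℂ) z / z‖ ≤ 1 := by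
  rw [norm_div, RCLike.norm_conj]
  exact div_self_le_one _

theorem PUL_arg1 (z : ℂ) (hz : z ≠ 0) : ‖(starRingEnd ℂ) z / z‖ = 1 := by
  rw [norm_div, RCLike.norm_conj, div_self (norm_ne_zero_iff.mpr hz)]

/-- the half of the final inequality. -/
theorem PUL_half (e e' a a₁ p b₁ be m₁ m₂ : ℂ) (x y : ℝ) (he : ‖e‖ = 1) (he' : ‖e'‖ = 1) (ha : ‖a‖ ≤ 1)
    (hp : ‖p‖ ≤ 1) (hbe : ‖be‖ ≤ 1) (h1 : ‖a - a₁‖ ≤ x) (h2 : ‖p - b₁‖ ≤ y) (hrel : m₁ * a = m₂ * (p * be)) :
    ‖e * a₁ - e' * be * b₁‖ ≤ (‖m₁ - e‖ + x) + (‖m₂ - e'‖ + y) := by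
  have e1 : e * a₁ - e' * be * b₁ = (-(e * (a - a₁)) - (m₁ - e) * a) + ((m₂ - e') * p + e' * (p - b₁)) * be := by
    linear_combination hrel
  rw [e1]
  have t1 : ‖-(e * (a - a₁)) - (m₁ - e) * a‖ ≤ ‖m₁ - e‖ + x := by
    refine le_trans (norm_sub_le _ _) ?_
    rw [norm_neg, norm_mul, norm_mul, he, one_mul]
    have := mul_le_mul_of_nonneg_left ha (norm_nonneg (m₁ - e))
    linarith
  have t2 : ‖((m₂ - e') * p + e' * (p - b₁)) * be‖ ≤ ‖m₂ - e'‖ + y := by
    rw [norm_mul]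
    have t3 : ‖(m₂ - e') * p + e' * (p - b₁)‖ ≤ ‖m₂ - e'‖ + y := by
      refine le_trans (norm_add_le _ _) ?_
      rw [norm_mul, norm_mul, he', one_mul]
      have := mul_le_mul_of_nonneg_left hp (norm_nonneg (m₂ - e'))
      linarith
    calc ‖(m₂ - e') * p + e' * (p - b₁)‖ * ‖be‖ ≤ ‖(m₂ - e') * p + e' * (p - b₁)‖ * 1 :=
          mul_le_mul_of_nonneg_left hbe (norm_nonneg _)
      _ ≤ _ := by rw [mul_one]; exact t3
  exact le_trans (norm_add_le _ _) (add_le_add t1 t2)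

/-- powers of a unit number. -/
theorem PUL_pow (z : ℂ) (hz : ‖z‖ = 1) (j : ℕ) : ‖z ^ j - 1‖ ≤ j * ‖z - 1‖ := by
  induction j with
  | zero => simp
  | succ j ih =>
    have e1 : z ^ (j + 1) - 1 = z ^ j * (z - 1) + (z ^ j - 1) := by ring
    rw [e1]
    refine le_trans (norm_add_le _ _) ?_
    rw [norm_mul, norm_pow, hz, one_pow, one_mul]
    push_cast
    linarith

/-- `y ↦ y^n` is injective on a small disc. -/
theorem PUL_inj (n : ℕ) (hn : 2 ≤ n) (s : ℝ) (hs : 0 < s) :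
    InjOn (fun y : ℂ => y ^ n) (ball ((s / 2 : ℝ) : ℂ) (s / (8 * n))) := by
  intro y hy w hw hyw
  simp only at hyw
  have hn0 : (0 : ℝ) < n := by positivity
  have hn2 : (2 : ℝ) ≤ n := by exact_mod_cast hn
  have hsn : s / (8 * n) ≤ s / 16 := by
    apply div_le_div_of_nonneg_left hs.le (by norm_num)
    linarith
  rw [mem_ball, dist_eq_norm] at hy hw
  have hwn : s / 4 ≤ ‖w‖ := by
    have h1 : ‖((s / 2 : ℝ) : ℂ)‖ - ‖w - ((s / 2 : ℝ) : ℂ)‖ ≤ ‖w‖ := by
      have := norm_sub_norm_le (((s / 2 : ℝ) : ℂ)) (((s / 2 : ℝ) : ℂ) - w)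
      rw [sub_sub_cancel, norm_sub_rev (((s / 2 : ℝ) : ℂ)) w] at this
      exact this
    rw [Complex.norm_real, Real.norm_eq_abs, abs_of_pos (by positivity)] at h1
    linarith
  have hw0 : w ≠ 0 := by
    intro h
    rw [h, norm_zero] at hwn
    linarith
  set z := y / w with hz
  have hzn : z ^ n = 1 := by
    rw [hz, div_pow, hyw, div_self (pow_ne_zero n hw0)]
  have hz1 : ‖z‖ = 1 := norm_eq_one_of_pow_eq_one hzn (by omega)
  have hzd : ‖z - 1‖ < 1 / n := by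
    have e1 : z - 1 = (y - w) / w := by rw [hz, sub_div, div_self hw0]
    rw [e1, norm_div, div_lt_div_iff₀ (by linarith) hn0]
    have h1 : ‖y - w‖ < 2 * (s / (8 * n)) := by
      have e2 : y - w = (y - ((s / 2 : ℝ) : ℂ)) - (w - ((s / 2 : ℝ) : ℂ)) := by ring
      rw [e2]
      exact lt_of_le_of_lt (norm_sub_le _ _) (by linarith)
    have h2 : 2 * (s / (8 * n)) * n = s / 4 := by field_simp; norm_num
    calc ‖y - w‖ * n < 2 * (s / (8 * n)) * n := mul_lt_mul_of_pos_right h1 hn0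
      _ = s / 4 := h2
      _ ≤ 1 * ‖w‖ := by linarith
  have hgeo : (∑ i ∈ Finset.range n, z ^ i) * (z - 1) = 0 := by
    rw [geom_sum_mul, hzn, sub_self]
  rcases mul_eq_zero.mp hgeo with h0 | h0
  · exfalso
    have h1 : ‖∑ i ∈ Finset.range n, (z ^ i - 1)‖ ≤ ∑ i ∈ Finset.range n, (i : ℝ) * ‖z - 1‖ :=
      norm_sum_le_of_le _ (fun i _ => PUL_pow z hz1 i)
    rw [Finset.sum_sub_distrib, h0, zero_sub, norm_neg, ← Finset.sum_mul] at h1
    simp only [Finset.sum_const, Finset.card_range, nsmul_eq_mul, mul_one, Complex.norm_natCast] at h1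
    have h2 : ∑ i ∈ Finset.range n, (i : ℝ) ≤ ∑ i ∈ Finset.range n, (n : ℝ) := by
      apply Finset.sum_le_sum
      intro i hi
      exact_mod_cast (Finset.mem_range.mp hi).le
    rw [Finset.sum_const, Finset.card_range, nsmul_eq_mul] at h2
    have h3 : (∑ i ∈ Finset.range n, (i : ℝ)) * ‖z - 1‖ < n := by
      calc (∑ i ∈ Finset.range n, (i : ℝ)) * ‖z - 1‖ ≤ (n * n) * ‖z - 1‖ :=
            mul_le_mul_of_nonneg_right h2 (norm_nonneg _)
        _ < (n * n) * (1 / n) := by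
            apply mul_lt_mul_of_pos_left hzd (by positivity)
        _ = n := by field_simp
    linarith
  · have : z = 1 := sub_eq_zero.mp h0
    rw [hz, div_eq_one_iff_eq hw0] at this
    exact this

theorem PUL (hKO0 : V3.KO0_stmt) (hKO3 : V3.KO3_stmt) (hARG : ARG_stmt) : PUL_stmt := by
  obtain ⟨C₃, hC3, hK3⟩ := hKO3 (1 / 2) (by norm_num) (by norm_num)
  obtain ⟨C₂, hC2, hA⟩ := hARG
  have hC30 : 0 < C₃ := by linarith
  have hC20 : 0 < C₂ := by linarith
  have hUDo : IsOpen UD := isOpen_ball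
  refine ⟨C₃, hC3, ?_⟩
  intro n hn K hK
  have hK0 : 0 < K := by linarith
  have hn0 : (0 : ℝ) < n := by positivity
  have hn2 : (2 : ℝ) ≤ n := by exact_mod_cast hn
  set s : ℝ := 1 / (4 * C₂) with hsdef
  have hs0 : 0 < s := by positivity
  have hs4 : s ≤ 1 / 4 := by
    rw [hsdef]
    apply one_div_le_one_div_of_le (by norm_num)
    linarith
  have hCs : 4 * C₂ * s = 1 := by
    rw [hsdef]
    field_simp
  set d : ℝ := s / (8 * n) with hddef
  have hd0 : 0 < d := by positivity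
  have hds : d ≤ s / 16 := by
    rw [hddef]
    apply div_le_div_of_nonneg_left hs0.le (by norm_num)
    linarith
  set D₀ : Set ℂ := ball ((s / 2 : ℝ) : ℂ) d with hD0
  have hD0o : IsOpen D₀ := isOpen_ball
  have hD0m : MeasurableSet D₀ := hD0o.measurableSet
  have hD0f : volume D₀ ≠ ⊤ := measure_ball_lt_top.ne
  -- norms on `D₀`
  have hnD : ∀ y ∈ D₀, s / 4 ≤ ‖y‖ ∧ ‖y‖ < s := by
    intro y hy
    rw [hD0, mem_ball, dist_eq_norm] at hy
    have hs2 : ‖((s / 2 : ℝ) : ℂ)‖ = s / 2 := by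
      rw [Complex.norm_real, Real.norm_eq_abs, abs_of_pos (by positivity)]
    constructor
    · have := norm_sub_norm_le (((s / 2 : ℝ) : ℂ)) (((s / 2 : ℝ) : ℂ) - y)
      rw [sub_sub_cancel, norm_sub_rev (((s / 2 : ℝ) : ℂ)) y, hs2] at this
      linarith
    · have := norm_add_le (y - ((s / 2 : ℝ) : ℂ)) (((s / 2 : ℝ) : ℂ))
      rw [sub_add_cancel, hs2] at this
      linarith
  set v : ℝ := (volume D₀).toReal with hv
  have hvpos : 0 < v := ENNReal.toReal_pos (measure_ball_pos volume _ hd0).ne' hD0f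
  set M : ℝ := 2 * C₃ ^ 2 + 2 * (K * C₃ / (s / 4) ^ (n - 1)) ^ 2 with hM
  have hMpos : 0 < M := by positivity
  refine ⟨v / (2 * M), by positivity, ?_⟩
  intro μ X Ψ ρ e e' hμm hμb hXd hXi hX0 hΨd hΨi hρ hΨb hρK hrel he he' hIX hIΨ
  set ε : ℝ := v / (2 * M) with hε
  have hXne : deriv X 0 ≠ 0 := hKO0 X UD hUDo hXd hXi 0 (by simp [UD])
  have hΨne : deriv Ψ 0 ≠ 0 := hKO0 Ψ UD hUDo hΨd hΨi 0 (by simp [UD])
  have hXp : 0 < ‖deriv X 0‖ := norm_pos_iff.mpr hXne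
  have hhm : ∀ u : ℂ, Measurable (fun z => ‖μ z - u‖) := fun u => (hμm.sub_const u).norm
  have hhb : ∀ u : ℂ, ‖u‖ = 1 → ∀ z, 0 ≤ ‖μ z - u‖ ∧ ‖μ z - u‖ ≤ 2 := by
    intro u hu z
    refine ⟨norm_nonneg _, ?_⟩
    have := norm_sub_le (μ z) u
    have := hμb z
    linarith
  -- first integral estimate
  have IX : ∀ X₁ : ℂ → ℂ, DifferentiableOn ℂ X₁ UD → InjOn X₁ UD → X₁ 0 = 0 → ‖deriv X₁ 0‖ = ‖deriv X 0‖ →
      ∫ y in D₀, ‖μ (X₁ y) - e‖ ≤ C₃ ^ 2 * ε := by
    intro X₁ h1 h2 h3 h4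
    have hko := (hK3 X₁ 0 1 one_pos h1 h2).2
    have hsub : D₀ ⊆ ball (0 : ℂ) ((1 - 1 / 2) * 1) := by
      intro y hy
      rw [mem_ball_zero_iff]
      have := (hnD y hy).2
      linarith
    have hsub' : D₀ ⊆ UD := by
      intro y hy
      have := (hnD y hy).2
      simp only [UD, mem_ball_zero_iff]
      linarith
    have hc := PUL_cv X₁ (fun z => ‖μ z - e‖) D₀ (ball 0 (K * ‖deriv X 0‖)) (‖deriv X 0‖ / C₃) hD0o
      measure_ball_lt_top.ne (hhm e) (hhb e he) (h1.mono hsub') (h2.mono hsub') (by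
        rintro _ ⟨y, hy, rfl⟩
        rw [mem_ball_zero_iff]
        have h5 := (hko y (hsub hy)).2.2.1
        rw [h3, sub_zero, sub_zero, h4] at h5
        have h6 := (hnD y hy).2
        calc ‖X₁ y‖ ≤ C₃ * ‖y‖ * ‖deriv X 0‖ := h5
          _ < K * ‖deriv X 0‖ := by
            apply mul_lt_mul_of_pos_right _ hXp
            calc C₃ * ‖y‖ < C₃ * 1 := by
                  apply mul_lt_mul_of_pos_left _ hC30
                  linarith
              _ ≤ K := by linarith) (by positivity) (by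
        intro y hy
        have h5 := (hko y (hsub hy)).2.1
        rw [h4] at h5
        rw [div_le_iff₀ hC30]
        linarith)
    refine le_trans hc ?_
    refine le_trans (mul_le_mul_of_nonneg_left hIX (by positivity)) ?_
    apply le_of_eq
    field_simp
  -- second integral estimate
  have IQ : ∀ Ψ₁ : ℂ → ℂ, DifferentiableOn ℂ Ψ₁ UD → InjOn Ψ₁ UD → (∀ y ∈ UD, ‖Ψ₁ y‖ < K * ρ) →
      ‖deriv Ψ₁ 0‖ = ‖deriv Ψ 0‖ → ∫ y in D₀, ‖μ (Ψ₁ (y ^ n)) - e'‖ ≤ (K * C₃ / (s / 4) ^ (n - 1)) ^ 2 * ε := by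
    intro Ψ₁ h1 h2 h3 h4
    have hko := (hK3 Ψ₁ 0 1 one_pos h1 h2).2
    have hpw : ∀ y ∈ D₀, y ^ n ∈ ball (0 : ℂ) ((1 - 1 / 2) * 1) := by
      intro y hy
      rw [mem_ball_zero_iff, norm_pow]
      have h5 := (hnD y hy).2
      have h6 : ‖y‖ ^ n ≤ ‖y‖ := pow_le_of_le_one (norm_nonneg y) (by linarith) (by omega)
      linarith
    have hpw' : ∀ y ∈ D₀, y ^ n ∈ UD := by
      intro y hy
      have := hpw y hy
      simp only [UD]
      exact ball_subset_ball (by norm_num) this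
    have hdq : ∀ y ∈ D₀, HasDerivAt (fun x => Ψ₁ (x ^ n)) (deriv Ψ₁ (y ^ n) * (n * y ^ (n - 1))) y := by
      intro y hy
      have h5 := (h1.differentiableAt (hUDo.mem_nhds (hpw' y hy))).hasDerivAt
      exact h5.comp y (hasDerivAt_pow n y)
    set m : ℝ := (s / 4) ^ (n - 1) * ρ / (K * C₃) with hm
    have hmpos : 0 < m := by positivity
    have hc := PUL_cv (fun x => Ψ₁ (x ^ n)) (fun z => ‖μ z - e'‖) D₀ (ball 0 (K * ρ)) m hD0o
      measure_ball_lt_top.ne (hhm e') (hhb e' he')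
      (fun y hy => (hdq y hy).differentiableAt.differentiableWithinAt)
      (by
        intro y hy w hw hyw
        exact PUL_inj n hn s hs0 hy hw (h2 (hpw' y hy) (hpw' w hw) hyw))
      (by
        rintro _ ⟨y, hy, rfl⟩
        rw [mem_ball_zero_iff]
        exact h3 _ (hpw' y hy)) hmpos (by
        intro y hy
        rw [(hdq y hy).deriv, norm_mul, norm_mul, norm_pow, Complex.norm_natCast]
        have h5 := (hko (y ^ n) (hpw y hy)).2.1
        rw [h4] at h5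
        have h6 : (s / 4) ^ (n - 1) ≤ ‖y‖ ^ (n - 1) := pow_le_pow_left₀ (by positivity) (hnD y hy).1 _
        have h7 : ρ / (K * C₃) ≤ ‖deriv Ψ₁ (y ^ n)‖ := by
          rw [div_le_iff₀ (by positivity)]
          calc ρ ≤ K * ‖deriv Ψ 0‖ := hρK
            _ ≤ K * (C₃ * ‖deriv Ψ₁ (y ^ n)‖) := mul_le_mul_of_nonneg_left h5 hK0.le
            _ = ‖deriv Ψ₁ (y ^ n)‖ * (K * C₃) := by ring
        calc m = (ρ / (K * C₃)) * (1 * (s / 4) ^ (n - 1)) := by rw [hm]; ring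
          _ ≤ ‖deriv Ψ₁ (y ^ n)‖ * (n * ‖y‖ ^ (n - 1)) := by
            apply mul_le_mul h7 _ (by positivity) (norm_nonneg _)
            apply mul_le_mul _ h6 (by positivity) (by positivity)
            linarith)
    refine le_trans hc ?_
    refine le_trans (mul_le_mul_of_nonneg_left hIΨ (by positivity)) ?_
    apply le_of_eq
    rw [hm]
    field_simp
  -- the rotation
  obtain ⟨et, het, hetn⟩ : ∃ et : ℂ, ‖et‖ = 1 ∧ et ^ (n - 1) = I := by
    refine ⟨exp (((Real.pi / (2 * (n - 1 : ℕ)) : ℝ) : ℂ) * I), Complex.norm_exp_ofReal_mul_I _, ?_⟩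
    rw [← Complex.exp_nat_mul]
    have hnn : ((n - 1 : ℕ) : ℂ) ≠ 0 := by
      have : n - 1 ≠ 0 := by omega
      exact_mod_cast this
    have e1 : ((n - 1 : ℕ) : ℂ) * (((Real.pi / (2 * (n - 1 : ℕ)) : ℝ) : ℂ) * I) = (Real.pi : ℂ) / 2 * I := by
      push_cast
      field_simp
    rw [e1]
    exact Complex.exp_pi_div_two_mul_I
  have het0 : et ≠ 0 := by
    intro h
    rw [h, norm_zero] at het
    exact zero_ne_one het
  -- the relation almost everywhere, also at the rotated point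
  have hrot : ∀ᵐ y : ℂ, et * y ∈ UD → μ (X (et * y)) * (starRingEnd ℂ) (deriv X (et * y)) / deriv X (et * y) =
      μ (Ψ ((et * y) ^ n)) * (starRingEnd ℂ) (deriv (fun x => Ψ (x ^ n)) (et * y)) / deriv (fun x => Ψ (x ^ n)) (et * y) := by
    have hmp := (rotation ⟨et, mem_sphere_zero_iff_norm.mpr het⟩).measurePreserving
    have := hmp.quasiMeasurePreserving.ae hrel
    exact this
  -- pointwise inequality
  have hbase : ∀ y : ℂ, y ≠ 0 → ‖y‖ < s → (μ (X y) * (starRingEnd ℂ) (deriv X y) / deriv X y =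
      μ (Ψ (y ^ n)) * (starRingEnd ℂ) (deriv (fun x => Ψ (x ^ n)) y) / deriv (fun x => Ψ (x ^ n)) y) →
      ‖e * ((starRingEnd ℂ) (deriv X 0) / deriv X 0) -
        e' * ((starRingEnd ℂ) (y ^ (n - 1)) / y ^ (n - 1)) * ((starRingEnd ℂ) (deriv Ψ 0) / deriv Ψ 0)‖ ≤
      (‖μ (X y) - e‖ + C₂ * s) + (‖μ (Ψ (y ^ n)) - e'‖ + C₂ * s) := by
    intro y hy0 hys hr
    have hyn : ‖y ^ n‖ < s := by
      rw [norm_pow]
      exact lt_of_le_of_lt (pow_le_of_le_one (norm_nonneg y) (by linarith) (by omega)) hys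
    have hynU : y ^ n ∈ UD := by
      simp only [UD, mem_ball_zero_iff]
      linarith
    have hdq : deriv (fun x => Ψ (x ^ n)) y = deriv Ψ (y ^ n) * (n * y ^ (n - 1)) := by
      have h5 := (hΨd.differentiableAt (hUDo.mem_nhds hynU)).hasDerivAt
      exact (h5.comp y (hasDerivAt_pow n y)).deriv
    have hnC : (n : ℂ) ≠ 0 := by
      have : n ≠ 0 := by omega
      exact_mod_cast this
    have hkap : (starRingEnd ℂ) (deriv (fun x => Ψ (x ^ n)) y) / deriv (fun x => Ψ (x ^ n)) y =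
        ((starRingEnd ℂ) (deriv Ψ (y ^ n)) / deriv Ψ (y ^ n)) * ((starRingEnd ℂ) (y ^ (n - 1)) / y ^ (n - 1)) := by
      rw [hdq, map_mul, map_mul, map_natCast]
      have hpn : y ^ (n - 1) ≠ 0 := pow_ne_zero _ hy0
      by_cases hz : deriv Ψ (y ^ n) = 0
      · rw [hz]; simp
      · field_simp
    apply PUL_half e e' ((starRingEnd ℂ) (deriv X y) / deriv X y) ((starRingEnd ℂ) (deriv X 0) / deriv X 0)
      ((starRingEnd ℂ) (deriv Ψ (y ^ n)) / deriv Ψ (y ^ n)) ((starRingEnd ℂ) (deriv Ψ 0) / deriv Ψ 0)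
      ((starRingEnd ℂ) (y ^ (n - 1)) / y ^ (n - 1)) (μ (X y)) (μ (Ψ (y ^ n))) (C₂ * s) (C₂ * s) he he' (PUL_arg _)
      (PUL_arg _) (PUL_arg _)
    · refine le_trans (hA X hXd hXi y (by linarith)) ?_
      exact mul_le_mul_of_nonneg_left hys.le hC20.le
    · refine le_trans (hA Ψ hΨd hΨi (y ^ n) (by linarith)) ?_
      exact mul_le_mul_of_nonneg_left hyn.le hC20.le
    · rw [← hkap, ← mul_div_assoc, ← mul_div_assoc]
      exact hr
  have hpt : ∀ᵐ y : ℂ, y ∈ D₀ → 1 ≤ (‖μ (X y) - e‖ + ‖μ (Ψ (y ^ n)) - e'‖) +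
      (‖μ (X (et * y)) - e‖ + ‖μ (Ψ (et ^ n * y ^ n)) - e'‖) := by
    filter_upwards [hrel, hrot] with y h1 h2 hy
    obtain ⟨hy1, hy2⟩ := hnD y hy
    have hy0 : y ≠ 0 := by
      intro h
      rw [h, norm_zero] at hy1
      linarith
    have hety : ‖et * y‖ < s := by rw [norm_mul, het, one_mul]; exact hy2
    have hU1 : y ∈ UD := by
      simp only [UD, mem_ball_zero_iff]
      linarith
    have hU2 : et * y ∈ UD := by
      simp only [UD, mem_ball_zero_iff]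
      linarith
    have b1 := hbase y hy0 hy2 (h1 hU1)
    have b2 := hbase (et * y) (mul_ne_zero het0 hy0) hety (h2 hU2)
    have hbeta : (starRingEnd ℂ) ((et * y) ^ (n - 1)) / (et * y) ^ (n - 1) =
        -((starRingEnd ℂ) (y ^ (n - 1)) / y ^ (n - 1)) := by
      rw [mul_pow, hetn, map_mul, Complex.conj_I]
      have hpn : y ^ (n - 1) ≠ 0 := pow_ne_zero _ hy0
      have hI : I ≠ 0 := Complex.I_ne_zero
      field_simp
    rw [hbeta, mul_pow et y n] at b2
    set A := e * ((starRingEnd ℂ) (deriv X 0) / deriv X 0)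
    set Bv := e' * ((starRingEnd ℂ) (y ^ (n - 1)) / y ^ (n - 1)) * ((starRingEnd ℂ) (deriv Ψ 0) / deriv Ψ 0) with hBv
    have hBn : ‖Bv‖ = 1 := by
      rw [hBv, norm_mul, norm_mul, he', PUL_arg1 _ (pow_ne_zero _ hy0), PUL_arg1 _ hΨne]
      norm_num
    have e1 : e' * -((starRingEnd ℂ) (y ^ (n - 1)) / y ^ (n - 1)) * ((starRingEnd ℂ) (deriv Ψ 0) / deriv Ψ 0) = -Bv := by
      rw [hBv]; ring
    rw [e1] at b2
    have h5 : (2 : ℝ) ≤ ‖A - Bv‖ + ‖A - -Bv‖ := by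
      have h6 : ‖(A - -Bv) - (A - Bv)‖ ≤ ‖A - -Bv‖ + ‖A - Bv‖ := norm_sub_le _ _
      have e2 : (A - -Bv) - (A - Bv) = 2 * Bv := by ring
      rw [e2, norm_mul, hBn] at h6
      simp only [Complex.norm_ofNat, mul_one] at h6
      linarith
    linarith
  -- integrability
  have hint : ∀ (F : ℂ → ℂ) (u : ℂ), ‖u‖ = 1 → ContinuousOn F D₀ → IntegrableOn (fun y => ‖μ (F y) - u‖) D₀ := by
    intro F u hu hF
    have hae : AEStronglyMeasurable (fun y => ‖μ (F y) - u‖) (volume.restrict D₀) := by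
      have h5 : AEMeasurable F (volume.restrict D₀) := hF.aemeasurable hD0m
      exact ((hhm u).comp_aemeasurable h5).aestronglyMeasurable
    have : IsFiniteMeasure (volume.restrict D₀) := ⟨by
      rw [Measure.restrict_apply_univ]
      exact lt_of_le_of_ne le_top hD0f⟩
    refine Integrable.of_bound hae 2 ?_
    refine Eventually.of_forall fun z => ?_
    rw [Real.norm_eq_abs, abs_of_nonneg (norm_nonneg _)]
    exact (hhb u hu _).2
  have hsubU : D₀ ⊆ UD := by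
    intro y hy
    have := (hnD y hy).2
    simp only [UD, mem_ball_zero_iff]
    linarith
  have hpwU : ∀ y ∈ D₀, y ^ n ∈ UD := by
    intro y hy
    have h5 := (hnD y hy).2
    have h6 : ‖y‖ ^ n ≤ ‖y‖ := pow_le_of_le_one (norm_nonneg y) (by linarith) (by omega)
    simp only [UD, mem_ball_zero_iff, norm_pow]
    linarith
  -- rotated functions
  have hmapr : ∀ w : ℂ, ‖w‖ = 1 → ∀ y ∈ UD, w * y ∈ UD := by
    intro w hw y hy
    simp only [UD, mem_ball_zero_iff] at hy ⊢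
    rw [norm_mul, hw, one_mul]
    exact hy
  have hrotd : ∀ (F : ℂ → ℂ) (w : ℂ), ‖w‖ = 1 → DifferentiableOn ℂ F UD → InjOn F UD →
      DifferentiableOn ℂ (fun y => F (w * y)) UD ∧ InjOn (fun y => F (w * y)) UD ∧
      ‖deriv (fun y => F (w * y)) 0‖ = ‖deriv F 0‖ := by
    intro F w hw h1 h2
    have hw0 : w ≠ 0 := by
      intro h
      rw [h, norm_zero] at hw
      exact zero_ne_one hw
    refine ⟨?_, ?_, ?_⟩
    · exact h1.comp ((differentiable_id.const_mul w).differentiableOn) (hmapr w hw)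
    · intro x hx y hy hxy
      exact mul_left_cancel₀ hw0 (h2 (hmapr w hw x hx) (hmapr w hw y hy) hxy)
    · rw [deriv_comp_mul_left w F 0]
      simp [hw]
  have hetn1 : ‖et ^ n‖ = 1 := by rw [norm_pow, het, one_pow]
  obtain ⟨x1, x2, x3⟩ := hrotd X et het hXd hXi
  obtain ⟨p1, p2, p3⟩ := hrotd Ψ (et ^ n) hetn1 hΨd hΨi
  have I1 := IX X hXd hXi hX0 rfl
  have I2 := IX (fun y => X (et * y)) x1 x2 (by simp [hX0]) x3
  have I3 := IQ Ψ hΨd hΨi hΨb rfl
  have I4 := IQ (fun y => Ψ (et ^ n * y)) p1 p2 (fun y hy => hΨb _ (hmapr _ hetn1 y hy)) p3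
  have c1 : ContinuousOn X D₀ := hXd.continuousOn.mono hsubU
  have c2 : ContinuousOn (fun y => X (et * y)) D₀ := x1.continuousOn.mono hsubU
  have c3 : ContinuousOn (fun y => Ψ (y ^ n)) D₀ :=
    hΨd.continuousOn.comp (continuous_pow n).continuousOn hpwU
  have c4 : ContinuousOn (fun y => Ψ (et ^ n * y ^ n)) D₀ :=
    p1.continuousOn.comp (continuous_pow n).continuousOn hpwU
  have i1 := hint _ e he c1
  have i2 := hint _ e he c2
  have i3 := hint _ e' he' c3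
  have i4 := hint _ e' he' c4
  have hsum : v ≤ ∫ y in D₀, ((‖μ (X y) - e‖ + ‖μ (Ψ (y ^ n)) - e'‖) +
      (‖μ (X (et * y)) - e‖ + ‖μ (Ψ (et ^ n * y ^ n)) - e'‖)) := by
    have h5 : ∫ _y in D₀, (1 : ℝ) = v := by
      rw [setIntegral_const, smul_eq_mul, mul_one]
      rfl
    rw [← h5]
    refine integral_mono_of_nonneg (Eventually.of_forall fun z => zero_le_one) ((i1.add i3).add (i2.add i4)) ?_
    rw [EventuallyLE, ae_restrict_iff' hD0m]
    exact hpt
  have s1 : ∫ y in D₀, ((‖μ (X y) - e‖ + ‖μ (Ψ (y ^ n)) - e'‖) +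
      (‖μ (X (et * y)) - e‖ + ‖μ (Ψ (et ^ n * y ^ n)) - e'‖)) =
      (∫ y in D₀, (‖μ (X y) - e‖ + ‖μ (Ψ (y ^ n)) - e'‖)) +
      ∫ y in D₀, (‖μ (X (et * y)) - e‖ + ‖μ (Ψ (et ^ n * y ^ n)) - e'‖) :=
    integral_add (i1.add i3) (i2.add i4)
  have s2 : ∫ y in D₀, (‖μ (X y) - e‖ + ‖μ (Ψ (y ^ n)) - e'‖) =
      (∫ y in D₀, ‖μ (X y) - e‖) + ∫ y in D₀, ‖μ (Ψ (y ^ n)) - e'‖ := integral_add i1 i3
  have s3 : ∫ y in D₀, (‖μ (X (et * y)) - e‖ + ‖μ (Ψ (et ^ n * y ^ n)) - e'‖) =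
      (∫ y in D₀, ‖μ (X (et * y)) - e‖) + ∫ y in D₀, ‖μ (Ψ (et ^ n * y ^ n)) - e'‖ := integral_add i2 i4
  rw [s1, s2, s3] at hsum
  have hfin : v ≤ M * ε := by
    rw [hM]
    linarith
  rw [hε] at hfin
  have : M * (v / (2 * M)) = v / 2 := by field_simp
  rw [this] at hfin
  linarith

end DH
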